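import Pool.Agent.H218.HN.Harm1

/-!
Regularity propagates to the boundary of a zero-free half disc.
-/

set_option autoImplicit false

namespace Pool.Agent.H218.HN

open Complex Metric Set Filter Topology

theorem harm_aux : ∀ κ3 : ℝ, 0 < κ3 → ∃ η : ℝ, 0 < η ∧ ∀ (A : ℝ) (h : ℂ → ℂ), 1 ≤ A →
    Differentiable ℂ h →
    (∀ ζ : ℂ, 0 < ζ.re → ‖ζ‖ < 40 → h ζ ≠ 0) →
    (∀ ζ : ℂ, 0 ≤ ζ.re → ‖ζ‖ < 40 → ‖h ζ‖ ≤
      Real.exp (A * ((if ζ.re ≤ 1 then ζ.re ^ 2 / 4 else ζ.re / 2 - 1 / 4) + η))) →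
    (∀ x y : ℝ, 1 ≤ x → x ≤ 30 → |y| ≤ 30 → ∃ s : ℝ, 3 / 4 ≤ s ∧ s ≤ 5 / 4 ∧
      Real.exp (A * ((x + s) / 2 - 1 / 4 - η)) ≤ ‖h (((x + s : ℝ) : ℂ) + (y : ℂ) * I)‖) →
    ∀ ζ : ℂ, 1 / 32 ≤ ζ.re → ‖ζ‖ ≤ 8 →
      ‖logDeriv h ζ - (A / 2 : ℝ)‖ ≤ κ3 * A ∧
      Real.exp (A * (ζ.re / 2 - 1 / 4 - κ3)) ≤ ‖h ζ‖ ∧
      ‖h ζ‖ ≤ Real.exp (A * (ζ.re / 2 - 1 / 4 + κ3)) := by
  intro κ3 hκ3
  set θ : ℝ := 1 - (Real.log (127 / 32) - Real.log 2) / (Real.log (255 / 64) - Real.log 2)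
    with hθ
  have hden : 0 < Real.log (255 / 64) - Real.log 2 := by
    have := Real.log_lt_log (by norm_num : (0 : ℝ) < 2) (by norm_num : (2 : ℝ) < 255 / 64)
    linarith
  have hθ0 : 0 < θ := by
    have h1 : (Real.log (127 / 32) - Real.log 2) / (Real.log (255 / 64) - Real.log 2) < 1 := by
      rw [div_lt_one hden]
      have := Real.log_lt_log (by norm_num : (0 : ℝ) < 127 / 32)
        (by norm_num : (127 / 32 : ℝ) < 255 / 64)
      linarith
    rw [hθ]
    linarith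
  have hθ1 : θ ≤ 1 := by
    have h1 : 0 ≤ (Real.log (127 / 32) - Real.log 2) / (Real.log (255 / 64) - Real.log 2) := by
      apply div_nonneg _ hden.le
      have := Real.log_le_log (by norm_num : (0 : ℝ) < 2) (by norm_num : (2 : ℝ) ≤ 127 / 32)
      linarith
    rw [hθ]
    linarith
  set m : ℝ := min 1 (κ3 / 4000000) with hm
  have hm0 : 0 < m := lt_min one_pos (by positivity)
  have hm1 : m ≤ 1 := min_le_left _ _
  have hm2 : m * 4000000 ≤ κ3 := by
    have := min_le_right (1 : ℝ) (κ3 / 4000000)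
    rw [← hm] at this
    rwa [le_div_iff₀ (by norm_num)] at this
  have hmp : 0 < m ^ (1 / θ) := Real.rpow_pos_of_pos hm0 _
  have h12 : 12 * (m ^ (1 / θ) / 12) = m ^ (1 / θ) := by ring
  have hle : m ^ (1 / θ) ≤ m := by
    have h2 : (1 : ℝ) ≤ 1 / θ := by
      rw [le_div_iff₀ hθ0]
      linarith
    have := Real.rpow_le_rpow_of_exponent_ge hm0 hm1 h2
    rwa [Real.rpow_one] at this
  have hpow : (m ^ (1 / θ)) ^ θ = m := by
    rw [← Real.rpow_mul hm0.le, one_div, inv_mul_cancel₀ hθ0.ne', Real.rpow_one]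
  refine ⟨m ^ (1 / θ) / 12, by positivity, ?_⟩
  intro A h hA hd hne hup hlow
  have hA0 : 0 < A := by linarith
  set η : ℝ := m ^ (1 / θ) / 12 with hη
  have hη0 : 0 < η := by rw [hη]; positivity
  have D : Dat A η h := by
    refine ⟨hA, hη0, by linarith, hd, hne, ?_, ?_, hlow⟩
    · intro z h1 h2
      refine le_trans (hup z (by linarith) h2) ?_
      apply Real.exp_le_exp.2
      apply mul_le_mul_of_nonneg_left _ hA0.le
      split_ifs with h3
      · have h4 : z.re = 1 := le_antisymm h3 h1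
        rw [h4]
        linarith
      · exact le_refl _
    · intro z h1 h2
      refine le_trans (hup z h1.le h2) ?_
      apply Real.exp_le_exp.2
      apply mul_le_mul_of_nonneg_left _ hA0.le
      split_ifs with h3
      · nlinarith
      · linarith
  intro z h1 h2
  have hη12 : 12 * η ≤ m := by rw [h12]; exact hle
  have hηθ : (12 * η) ^ θ ≤ m := by rw [h12, hpow]
  have hre : z.re ≤ 8 := le_trans (Complex.re_le_norm z) h2
  have him : |z.im| ≤ 8 := le_trans (Complex.abs_im_le_norm z) h2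
  have hz := D.st3 hm1 hm0 hθ hη12 hηθ h1 (by linarith) him
  have hz4 := abs_le.1 (D.st4 hm1 hm0 hθ hη12 hηθ h1 h2)
  have hpos : 0 < ‖h z‖ := norm_pos_iff.2 (hne z (by linarith) (by linarith))
  have hmA : 0 < m * A := by positivity
  have hηA : 12 * (η * A) ≤ m * A := by
    have := mul_le_mul_of_nonneg_right hη12 hA0.le
    linarith
  have hηA0 : 0 < η * A := by positivity
  have hκA : m * A * 4000000 ≤ κ3 * A := by
    have := mul_le_mul_of_nonneg_right hm2 hA0.le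
    linarith
  refine ⟨?_, ?_, ?_⟩
  · refine le_trans hz ?_
    linarith
  · rw [← Real.le_log_iff_exp_le hpos]
    linarith [hz4.1, hz4.2]
  · rw [← Real.log_le_iff_le_exp hpos]
    linarith [hz4.1, hz4.2]

end Pool.Agent.H218.HN
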