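import Pool.Agent.H466.HN.Stm5
import Pool.Agent.H218.HN.Harm2

/-!
`S_HARM` of `Pool.Agent.H466.HN.Stm5`.
-/

set_option autoImplicit false

namespace Pool.Agent.H218.HN

theorem harm : Pool.Agent.H466.HN.S_HARM := by
  unfold Pool.Agent.H466.HN.S_HARM Pool.Agent.H466.HN.pf
  exact harm_aux

end Pool.Agent.H218.HN
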