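import Mathlib

/-!
Complex analysis for the statement `S_HARM`: Harnack and Schwarz-Pick estimates for
`α Re z + β - log ‖h z‖` where `h` has no zeros in a disc, and a three circles estimate.
-/

set_option autoImplicit false

namespace Pool.Agent.H218.HN

open Complex Metric Set Filter Topology

/-- local primitive -/
theorem prim {h : ℂ → ℂ} (hh : Differentiable ℂ h) {c : ℂ} {R α β : ℝ} (hR : 0 < R)
    (hne : ∀ z ∈ ball c R, h z ≠ 0) :
    ∃ G : ℂ → ℂ, (∀ z ∈ ball c R, HasDerivAt G ((α : ℂ) - logDeriv h z) z) ∧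
      (∀ z ∈ ball c R, (G z).re = α * z.re + β - Real.log ‖h z‖) ∧ (G c).im = 0 := by
  have hder : Differentiable ℂ (deriv h) := by
    have : DifferentiableOn ℂ (deriv h) univ :=
      hh.differentiableOn.deriv isOpen_univ
    exact fun z => (this z (mem_univ z)).differentiableAt univ_mem
  have hf : DifferentiableOn ℂ (fun z => (α : ℂ) - logDeriv h z) (ball c R) := by
    intro z hz
    apply DifferentiableAt.differentiableWithinAt
    apply DifferentiableAt.const_sub
    have h1 : DifferentiableAt ℂ (fun w => deriv h w / h w) z :=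
      (hder z).div (hh z) (hne z hz)
    exact h1
  have hcb : c ∈ ball c R := mem_ball_self hR
  obtain ⟨G, hGc, hG⟩ := hf.isExactOn_ball.with_val_at c
    (((α * c.re + β - Real.log ‖h c‖ : ℝ) : ℂ))
  refine ⟨G, hG, ?_, ?_⟩
  · -- the function `h exp (G - α z - β)` is constant
    have hq : ∀ z ∈ ball c R, HasDerivAt (fun z => h z * cexp (G z - α * z - β)) 0 z := by
      intro z hz
      have h1 : HasDerivAt h (deriv h z) z := (hh z).hasDerivAt
      have h2 : HasDerivAt (fun z : ℂ => G z - α * z - β) ((α : ℂ) - logDeriv h z - α * 1) z :=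
        ((hG z hz).sub ((hasDerivAt_id z).const_mul (α : ℂ))).sub_const (β : ℂ)
      have h3 := h1.mul h2.cexp
      have h4 : deriv h z * cexp (G z - α * z - β) +
          h z * (cexp (G z - α * z - β) * ((α : ℂ) - logDeriv h z - α * 1)) = 0 := by
        have h5 : logDeriv h z = deriv h z / h z := rfl
        have h6 := hne z hz
        rw [h5]
        field_simp
        ring
      rw [h4] at h3
      exact h3
    have hconst : ∀ z ∈ ball c R, h z * cexp (G z - α * z - β) = h c * cexp (G c - α * c - β) := by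
      intro z hz
      have hd : DifferentiableOn ℂ (fun z => h z * cexp (G z - α * z - β)) (ball c R) :=
        fun w hw => (hq w hw).differentiableAt.differentiableWithinAt
      have hfd : ∀ w ∈ ball c R, fderivWithin ℂ (fun z => h z * cexp (G z - α * z - β))
          (ball c R) w = 0 := by
        intro w hw
        rw [fderivWithin_of_isOpen isOpen_ball hw]
        have h7 := (hq w hw).hasFDerivAt.fderiv
        rw [h7]
        ext
        simp
      exact (convex_ball c R).is_const_of_fderivWithin_eq_zero hd hfd hz hcb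
    have hnc : ‖h c * cexp (G c - α * c - β)‖ = 1 := by
      have h8 : 0 < ‖h c‖ := norm_pos_iff.2 (hne c hcb)
      rw [norm_mul, Complex.norm_exp, hGc]
      have h9 : (((α * c.re + β - Real.log ‖h c‖ : ℝ) : ℂ) - α * c - β).re =
          - Real.log ‖h c‖ := by
        simp only [Complex.sub_re, Complex.ofReal_re, Complex.re_ofReal_mul]
        ring
      rw [h9, Real.exp_neg, Real.exp_log h8]
      exact mul_inv_cancel₀ h8.ne'
    intro z hz
    have h10 := congrArg norm (hconst z hz)
    rw [hnc, norm_mul, Complex.norm_exp] at h10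
    have h11 : 0 < ‖h z‖ := norm_pos_iff.2 (hne z hz)
    have h12 := congrArg Real.log h10
    rw [Real.log_mul h11.ne' (Real.exp_pos _).ne', Real.log_exp, Real.log_one] at h12
    have h13 : (G z - α * z - β).re = (G z).re - α * z.re - β := by
      simp only [Complex.sub_re, Complex.ofReal_re, Complex.re_ofReal_mul]
    rw [h13] at h12
    linarith
  · rw [hGc]
    exact Complex.ofReal_im _

/-- Schwarz lemma for functions with nonnegative real part. -/
theorem schwarz {G : ℂ → ℂ} {c : ℂ} {R : ℝ} (hG : DifferentiableOn ℂ G (ball c R))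
    (hre : ∀ z ∈ ball c R, 0 ≤ (G z).re) (him : (G c).im = 0) (hR : 0 < R) {ε : ℝ} (hε : 0 < ε) :
    ‖deriv G c‖ ≤ (2 * (G c).re + ε) / R ∧
      ∀ z ∈ ball c R, ‖G z - G c‖ ≤ 1 / R * dist z c * ‖G z + G c + ε‖ := by
  have hcb : c ∈ ball c R := mem_ball_self hR
  have hc0 := hre c hcb
  have hden : ∀ z ∈ ball c R, 0 < (G z + G c + ε).re := by
    intro z hz
    have h1 := hre z hz
    simp only [Complex.add_re, Complex.ofReal_re]
    linarith
  have hden0 : ∀ z ∈ ball c R, G z + G c + ε ≠ 0 := by
    intro z hz h0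
    have h1 := hden z hz
    rw [h0] at h1
    simp at h1
  set φ : ℂ → ℂ := fun z => (G z - G c) / (G z + G c + ε) with hφ
  have hφc : φ c = 0 := by simp [hφ]
  have hd : DifferentiableOn ℂ φ (ball c R) := by
    apply DifferentiableOn.div (hG.sub_const _) ((hG.add_const _).add_const _) hden0
  have hmaps : MapsTo φ (ball c R) (closedBall (φ c) 1) := by
    intro z hz
    rw [hφc, mem_closedBall_zero_iff, hφ]
    simp only
    rw [norm_div, div_le_one (norm_pos_iff.2 (hden0 z hz))]
    rw [← sq_le_sq₀ (norm_nonneg _) (norm_nonneg _), Complex.sq_norm, Complex.sq_norm,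
      Complex.normSq_apply, Complex.normSq_apply]
    simp only [Complex.add_re, Complex.ofReal_re, Complex.add_im, Complex.ofReal_im,
      Complex.sub_re, Complex.sub_im, him]
    have h1 := hre z hz
    nlinarith
  constructor
  · have h1 := Complex.norm_deriv_le_div_of_mapsTo_ball hd hmaps hR
    have h2 : HasDerivAt G (deriv G c) c :=
      ((hG c hcb).differentiableAt (isOpen_ball.mem_nhds hcb)).hasDerivAt
    have h3 : HasDerivAt φ ((deriv G c * (G c + G c + ε) - (G c - G c) * deriv G c) /
        (G c + G c + ε) ^ 2) c :=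
      (h2.sub_const _).div ((h2.add_const _).add_const _) (hden0 c hcb)
    rw [h3.deriv, sub_self, zero_mul, sub_zero, norm_div, norm_mul, norm_pow] at h1
    have h4 : ‖G c + G c + (ε : ℂ)‖ = 2 * (G c).re + ε := by
      have h5 : G c + G c + (ε : ℂ) = ((2 * (G c).re + ε : ℝ) : ℂ) := by
        apply Complex.ext
        · simp; ring
        · simp [him]
      rw [h5, Complex.norm_real, Real.norm_eq_abs, abs_of_pos (by linarith)]
    rw [h4] at h1
    have h5 : 0 < 2 * (G c).re + ε := by linarith
    rw [pow_two, mul_div_mul_right _ _ h5.ne', div_le_iff₀ h5] at h1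
    rw [le_div_iff₀ hR]
    rw [div_mul_eq_mul_div, one_mul, le_div_iff₀ hR] at h1
    exact h1
  · intro z hz
    have h1 := Complex.dist_le_div_mul_dist_of_mapsTo_ball hd hmaps hz
    rw [hφc, dist_zero_right, hφ] at h1
    simp only at h1
    rw [norm_div, div_le_iff₀ (norm_pos_iff.2 (hden0 z hz))] at h1
    exact h1

/-- Schwarz-Pick and Harnack. -/
theorem sp {h : ℂ → ℂ} (hh : Differentiable ℂ h) {c : ℂ} {R α β : ℝ} (hR : 0 < R)
    (hne : ∀ z ∈ ball c R, h z ≠ 0)
    (hpos : ∀ z ∈ ball c R, 0 ≤ α * z.re + β - Real.log ‖h z‖) :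
    ‖logDeriv h c - α‖ ≤ 2 * (α * c.re + β - Real.log ‖h c‖) / R ∧
      ∀ z : ℂ, dist z c ≤ R / 2 → α * z.re + β - Real.log ‖h z‖ ≤
        3 * (α * c.re + β - Real.log ‖h c‖) := by
  obtain ⟨G, hG, hGre, hGim⟩ := prim hh (α := α) (β := β) hR hne
  have hcb : c ∈ ball c R := mem_ball_self hR
  have hGd : DifferentiableOn ℂ G (ball c R) :=
    fun z hz => (hG z hz).differentiableAt.differentiableWithinAt
  have hre : ∀ z ∈ ball c R, 0 ≤ (G z).re := by
    intro z hz
    rw [hGre z hz]
    exact hpos z hz
  constructor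
  · rw [← hGre c hcb]
    have h1 : ‖logDeriv h c - α‖ = ‖deriv G c‖ := by
      rw [(hG c hcb).deriv, norm_sub_rev]
    rw [h1]
    apply le_of_forall_pos_le_add
    intro ε hε
    have h2 := (schwarz hGd hre hGim hR (ε := ε * R) (by positivity)).1
    rw [add_div, mul_div_cancel_right₀ _ hR.ne'] at h2
    exact h2
  · intro z hz
    have hzb : z ∈ ball c R := by
      rw [mem_ball]
      linarith
    rw [← hGre z hzb, ← hGre c hcb]
    apply le_of_forall_pos_le_add
    intro ε hε
    have h2 := (schwarz hGd hre hGim hR (ε := ε) hε).2 z hzb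
    have h3 : 1 / R * dist z c ≤ 1 / 2 := by
      rw [one_div, inv_mul_le_iff₀ hR]
      linarith
    have h4 : ‖G z - G c‖ ≤ 1 / 2 * ‖G z + G c + ε‖ :=
      le_trans h2 (mul_le_mul_of_nonneg_right h3 (norm_nonneg _))
    have h5 : ‖G z - G c‖ ^ 2 ≤ (1 / 2 * ‖G z + G c + ε‖) ^ 2 :=
      pow_le_pow_left₀ (norm_nonneg _) h4 2
    rw [mul_pow, Complex.sq_norm, Complex.sq_norm, Complex.normSq_apply,
      Complex.normSq_apply] at h5
    simp only [Complex.add_re, Complex.ofReal_re, Complex.add_im, Complex.ofReal_im,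
      Complex.sub_re, Complex.sub_im, hGim] at h5
    have h6 := hre z hzb
    have h7 := hre c hcb
    have h8 : ((G z).re - (G c).re) ^ 2 ≤ (1 / 2 * ((G z).re + (G c).re + ε)) ^ 2 := by
      nlinarith [sq_nonneg ((G z).im)]
    have h9 := abs_le_of_sq_le_sq h8 (by positivity)
    have h10 := (abs_le.1 h9).2
    linarith

/-- Hadamard's three circles theorem. -/
theorem three {f : ℂ → ℂ} {c : ℂ} {r1 r2 a b B : ℝ} (h1 : 0 < r1) (h12 : r1 < r2)
    (hd : ∀ z, r1 ≤ dist z c → dist z c ≤ r2 → DifferentiableAt ℂ f z)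
    (hB : ∀ z, r1 ≤ dist z c → dist z c ≤ r2 → ‖f z‖ ≤ B)
    (ha : ∀ z, dist z c = r1 → ‖f z‖ ≤ a) (hb : ∀ z, dist z c = r2 → ‖f z‖ ≤ b)
    {z : ℂ} (hz1 : r1 ≤ dist z c) (hz2 : dist z c ≤ r2) :
    ‖f z‖ ≤ a ^ (1 - (Real.log (dist z c) - Real.log r1) / (Real.log r2 - Real.log r1)) *
      b ^ ((Real.log (dist z c) - Real.log r1) / (Real.log r2 - Real.log r1)) := by
  have h2 : 0 < r2 := h1.trans h12
  have hlog : Real.log r1 < Real.log r2 := Real.log_lt_log h1 h12
  have hdist : ∀ w : ℂ, dist (c + cexp w) c = Real.exp w.re := by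
    intro w
    rw [dist_eq_norm, add_sub_cancel_left, Complex.norm_exp]
  have hs1 : ∀ w : ℂ, Real.log r1 ≤ w.re → r1 ≤ dist (c + cexp w) c := by
    intro w hw
    rw [hdist, ← Real.log_le_iff_le_exp h1]
    exact hw
  have hs2 : ∀ w : ℂ, w.re ≤ Real.log r2 → dist (c + cexp w) c ≤ r2 := by
    intro w hw
    rw [hdist, ← Real.le_log_iff_exp_le h2]
    exact hw
  have hz0 : 0 < dist z c := lt_of_lt_of_le h1 hz1
  have hne : z - c ≠ 0 := by
    intro h0
    rw [dist_eq_norm, h0, norm_zero] at hz0
    exact lt_irrefl _ hz0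
  have hexp : c + cexp (Complex.log (z - c)) = z := by
    rw [Complex.exp_log hne]
    ring
  have hre : (Complex.log (z - c)).re = Real.log (dist z c) := by
    rw [Complex.log_re, dist_eq_norm]
  have hmem : Complex.log (z - c) ∈ HadamardThreeLines.verticalClosedStrip (Real.log r1)
      (Real.log r2) := by
    show (Complex.log (z - c)).re ∈ Icc (Real.log r1) (Real.log r2)
    rw [hre]
    exact ⟨Real.log_le_log h1 hz1, Real.log_le_log hz0 hz2⟩
  have hdc : DiffContOnCl ℂ (fun w => f (c + cexp w))
      (HadamardThreeLines.verticalStrip (Real.log r1) (Real.log r2)) := by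
    apply DifferentiableOn.diffContOnCl
    intro w hw
    have hw2 : w ∈ HadamardThreeLines.verticalClosedStrip (Real.log r1) (Real.log r2) := by
      have hcl : IsClosed (HadamardThreeLines.verticalClosedStrip (Real.log r1)
          (Real.log r2)) := isClosed_Icc.preimage Complex.continuous_re
      have hsub : HadamardThreeLines.verticalStrip (Real.log r1) (Real.log r2) ⊆
          HadamardThreeLines.verticalClosedStrip (Real.log r1) (Real.log r2) := by
        intro v hv
        have hv' : v.re ∈ Ioo (Real.log r1) (Real.log r2) := hv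
        show v.re ∈ Icc (Real.log r1) (Real.log r2)
        exact ⟨le_of_lt hv'.1, le_of_lt hv'.2⟩
      exact closure_minimal hsub hcl hw
    apply DifferentiableAt.differentiableWithinAt
    have h3 : DifferentiableAt ℂ (fun w : ℂ => c + cexp w) w :=
      (differentiableAt_exp).const_add c
    exact DifferentiableAt.comp w (hd _ (hs1 w hw2.1) (hs2 w hw2.2)) h3
  have hbd : BddAbove ((norm ∘ (fun w => f (c + cexp w))) ''
      HadamardThreeLines.verticalClosedStrip (Real.log r1) (Real.log r2)) := by
    refine ⟨B, ?_⟩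
    rintro _ ⟨w, hw, rfl⟩
    exact hB _ (hs1 w hw.1) (hs2 w hw.2)
  have hfin := HadamardThreeLines.norm_le_interp_of_mem_verticalClosedStrip' (a := a) (b := b)
    hlog hmem hdc hbd
    (by
      intro w hw
      have hw' : w.re = Real.log r1 := hw
      apply ha
      rw [hdist, hw', Real.exp_log h1])
    (by
      intro w hw
      have hw' : w.re = Real.log r2 := hw
      apply hb
      rw [hdist, hw', Real.exp_log h2])
  simp only [hexp, hre] at hfin
  exact hfin

end Pool.Agent.H218.HN
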