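import Pool.Agent.H218.HN.Harm0

/-!
The estimate `S_HARM` of `Pool.Agent.H466.HN.Stm5`, for an abstract profile.
-/

set_option autoImplicit false

namespace Pool.Agent.H218.HN

open Complex Metric Set Filter Topology

/-- the bounds of `h` in the half disc -/
structure Dat (A η : ℝ) (h : ℂ → ℂ) : Prop where
  A1 : 1 ≤ A
  η0 : 0 < η
  η1 : η ≤ 1
  hd : Differentiable ℂ h
  ne : ∀ z : ℂ, 0 < z.re → ‖z‖ < 40 → h z ≠ 0
  up1 : ∀ z : ℂ, 1 ≤ z.re → ‖z‖ < 40 → ‖h z‖ ≤ Real.exp (A * (z.re / 2 - 1 / 4 + η))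
  up2 : ∀ z : ℂ, 0 < z.re → ‖z‖ < 40 → ‖h z‖ ≤ Real.exp (A * (z.re / 2 + η))
  low : ∀ x y : ℝ, 1 ≤ x → x ≤ 30 → |y| ≤ 30 → ∃ s : ℝ, 3 / 4 ≤ s ∧ s ≤ 5 / 4 ∧
      Real.exp (A * ((x + s) / 2 - 1 / 4 - η)) ≤ ‖h (((x + s : ℝ) : ℂ) + (y : ℂ) * I)‖

namespace Dat

variable {A η : ℝ} {h : ℂ → ℂ}

theorem u0 (D : Dat A η h) {z : ℂ} (h1 : 1 ≤ z.re) (h2 : ‖z‖ < 40) :
    0 ≤ A / 2 * z.re + A * (η - 1 / 4) - Real.log ‖h z‖ := by
  have h3 : 0 < ‖h z‖ := norm_pos_iff.2 (D.ne z (by linarith) h2)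
  have h4 := (Real.log_le_iff_le_exp h3).2 (D.up1 z h1 h2)
  linarith

theorem K0 (D : Dat A η h) {z : ℂ} (h1 : 0 < z.re) (h2 : ‖z‖ < 40) :
    0 ≤ A / 2 * z.re + A * η - Real.log ‖h z‖ := by
  have h3 : 0 < ‖h z‖ := norm_pos_iff.2 (D.ne z h1 h2)
  have h4 := (Real.log_le_iff_le_exp h3).2 (D.up2 z h1 h2)
  linarith

theorem re_ball {z c : ℂ} {R : ℝ} (h : z ∈ ball c R) : c.re - R < z.re ∧ z.re < c.re + R := by
  rw [mem_ball, dist_eq_norm] at h
  have h1 := Complex.abs_re_le_norm (z - c)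
  rw [Complex.sub_re] at h1
  have h2 := abs_le.1 h1
  constructor <;> linarith [h2.1, h2.2]

theorem norm_ball {z c : ℂ} {R : ℝ} (h : z ∈ ball c R) : ‖z‖ < ‖c‖ + R := by
  rw [mem_ball, dist_eq_norm] at h
  have h1 : ‖z‖ ≤ ‖z - c‖ + ‖c‖ := by
    have h2 := norm_add_le (z - c) c
    rwa [sub_add_cancel] at h2
  linarith

theorem norm_le_re_im (z : ℂ) : ‖z‖ ≤ |z.re| + |z.im| := Complex.norm_le_abs_re_add_abs_im z

/-- step 1 -/
theorem st1 (D : Dat A η h) {z : ℂ} (h1 : 2 ≤ z.re) (h2 : ‖z‖ ≤ 28) :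
    A / 2 * z.re + A * (η - 1 / 4) - Real.log ‖h z‖ ≤ 6 * η * A ∧
      ‖logDeriv h z - ((A / 2 : ℝ) : ℂ)‖ ≤ 12 * η * A := by
  have hre : z.re ≤ 28 := le_trans (Complex.re_le_norm z) h2
  have him : |z.im| ≤ 28 := le_trans (Complex.abs_im_le_norm z) h2
  obtain ⟨s, hs1, hs2, hs3⟩ := D.low (z.re - 1) z.im (by linarith) (by linarith) (by linarith)
  set p : ℂ := ((z.re - 1 + s : ℝ) : ℂ) + (z.im : ℂ) * I with hp
  have hpre : p.re = z.re - 1 + s := by simp [hp]
  have hpim : p.im = z.im := by simp [hp]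
  have hdist : dist z p ≤ 1 / 4 := by
    rw [dist_eq_norm]
    have h3 : z - p = ((1 - s : ℝ) : ℂ) := by
      apply Complex.ext
      · rw [Complex.sub_re, hpre, Complex.ofReal_re]; ring
      · rw [Complex.sub_im, hpim, Complex.ofReal_im]; ring
    rw [h3, Complex.norm_real, Real.norm_eq_abs, abs_le]
    constructor <;> linarith
  have hpn : ‖p‖ ≤ 28 + 1 / 4 := by
    have h4 : ‖p‖ ≤ ‖p - z‖ + ‖z‖ := by
      have h2 := norm_add_le (p - z) z
      rwa [sub_add_cancel] at h2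
    rw [← dist_eq_norm, dist_comm] at h4
    linarith
  have hpb : ∀ w ∈ ball p (3 / 4 : ℝ), 1 ≤ w.re ∧ ‖w‖ < 40 := by
    intro w hw
    have h5 := re_ball hw
    have h6 := norm_ball hw
    rw [hpre] at h5
    constructor <;> linarith [h5.1]
  have hA0 : 0 ≤ A := by linarith [D.A1]
  have hsp := (sp D.hd (c := p) (R := 3 / 4) (α := A / 2) (β := A * (η - 1 / 4)) (by norm_num)
    (fun w hw => D.ne w (by linarith [(hpb w hw).1]) (hpb w hw).2)
    (fun w hw => D.u0 (hpb w hw).1 (hpb w hw).2)).2 z (by linarith)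
  have hup : A / 2 * p.re + A * (η - 1 / 4) - Real.log ‖h p‖ ≤ 2 * η * A := by
    have h7 : 0 < ‖h p‖ := lt_of_lt_of_le (Real.exp_pos _) hs3
    have h8 := (Real.le_log_iff_exp_le h7).2 hs3
    rw [hpre]
    linarith
  have hu : A / 2 * z.re + A * (η - 1 / 4) - Real.log ‖h z‖ ≤ 6 * η * A := by linarith
  refine ⟨hu, ?_⟩
  have hzb : ∀ w ∈ ball z (1 : ℝ), 1 ≤ w.re ∧ ‖w‖ < 40 := by
    intro w hw
    have h5 := re_ball hw
    have h6 := norm_ball hw
    constructor <;> linarith [h5.1]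
  have hsp2 := (sp D.hd (c := z) (R := 1) (α := A / 2) (β := A * (η - 1 / 4)) (by norm_num)
    (fun w hw => D.ne w (by linarith [(hzb w hw).1]) (hzb w hw).2)
    (fun w hw => D.u0 (hzb w hw).1 (hzb w hw).2)).1
  rw [div_one] at hsp2
  linarith

/-- step 2 -/
theorem st2 (D : Dat A η h) (j : ℕ) : ∀ z : ℂ, 2 / 2 ^ j ≤ z.re → z.re ≤ 20 → |z.im| ≤ 18 →
    A / 2 * z.re + A * η - Real.log ‖h z‖ ≤ 3 ^ j * ((6 * η + 1 / 4) * A) := by
  induction j with
  | zero =>
    intro z h1 h2 h3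
    rw [pow_zero, div_one] at h1
    have h4 : ‖z‖ ≤ 28 := by
      have h5 : ‖z‖ ^ 2 = z.re ^ 2 + z.im ^ 2 := by
        rw [Complex.sq_norm, Complex.normSq_apply]; ring
      have h6 : z.im ^ 2 ≤ 18 ^ 2 := by
        rw [← sq_abs]
        exact pow_le_pow_left₀ (abs_nonneg _) h3 2
      have h7 : ‖z‖ ^ 2 ≤ 28 ^ 2 := by
        rw [h5]
        nlinarith
      exact le_of_sq_le_sq h7 (by norm_num)
    have h5 := (D.st1 h1 h4).1
    rw [pow_zero]
    linarith
  | succ j ih =>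
    intro z h1 h2 h3
    have hA0 : 0 ≤ A := by linarith [D.A1]
    have hc0 : 0 ≤ (6 * η + 1 / 4) * A := mul_nonneg (by linarith [D.η0]) hA0
    by_cases h4 : 2 / 2 ^ j ≤ z.re
    · have h5 := ih z h4 h2 h3
      have h6 : (3 : ℝ) ^ j * ((6 * η + 1 / 4) * A) ≤ 3 ^ (j + 1) * ((6 * η + 1 / 4) * A) := by
        apply mul_le_mul_of_nonneg_right _ hc0
        rw [pow_succ]
        have : (0 : ℝ) ≤ 3 ^ j := by positivity
        linarith
      linarith
    · push Not at h4
      have hz0 : 0 < z.re := lt_of_lt_of_le (by positivity) h1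
      have hz2 : z.re < 2 := by
        refine lt_of_lt_of_le h4 ?_
        rw [div_le_iff₀ (by positivity)]
        have : (1 : ℝ) ≤ 2 ^ j := one_le_pow₀ (by norm_num)
        linarith
      set c : ℂ := ((2 * z.re : ℝ) : ℂ) + (z.im : ℂ) * I with hc
      have hcre : c.re = 2 * z.re := by simp [hc]
      have hcim : c.im = z.im := by simp [hc]
      have hcn : ‖c‖ ≤ 22 := by
        refine le_trans (norm_le_re_im c) ?_
        rw [hcre, hcim, abs_of_pos (by linarith)]
        linarith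
      have hcb : ∀ w ∈ ball c (2 * z.re), 0 < w.re ∧ ‖w‖ < 40 := by
        intro w hw
        have h5 := re_ball hw
        have h6 := norm_ball hw
        rw [hcre] at h5
        constructor <;> linarith [h5.1]
      have h5 : A / 2 * c.re + A * η - Real.log ‖h c‖ ≤ 3 ^ j * ((6 * η + 1 / 4) * A) := by
        apply ih c
        · rw [hcre]
          rw [pow_succ] at h1
          have h7 : (2 : ℝ) / (2 ^ j * 2) = 2 / 2 ^ j / 2 := by
            rw [div_div]
          rw [h7] at h1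
          linarith
        · rw [hcre]; linarith
        · rw [hcim]; exact h3
      have hd : dist z c ≤ 2 * z.re / 2 := by
        rw [dist_eq_norm]
        have h8 : z - c = ((-z.re : ℝ) : ℂ) := by
          apply Complex.ext
          · rw [Complex.sub_re, hcre, Complex.ofReal_re]; ring
          · rw [Complex.sub_im, hcim, Complex.ofReal_im]; ring
        rw [h8, Complex.norm_real, Real.norm_eq_abs, abs_neg, abs_of_pos hz0]
        linarith
      have h6 := (sp D.hd (c := c) (R := 2 * z.re) (α := A / 2) (β := A * η) (by linarith)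
        (fun w hw => D.ne w (hcb w hw).1 (hcb w hw).2)
        (fun w hw => D.K0 (hcb w hw).1 (hcb w hw).2)).2 z hd
      rw [pow_succ]
      linarith

/-- step 2, derivative -/
theorem st2' (D : Dat A η h) {z : ℂ} (h1 : 1 / 64 ≤ z.re) (h2 : z.re ≤ 20) (h3 : |z.im| ≤ 18) :
    ‖logDeriv h z - ((A / 2 : ℝ) : ℂ)‖ ≤ 1749600 * A := by
  have h4 := D.st2 7 z (by norm_num; linarith) h2 h3
  have hn : ‖z‖ ≤ 38 := by
    refine le_trans (norm_le_re_im z) ?_
    rw [abs_of_pos (by linarith)]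
    linarith
  have hb : ∀ w ∈ ball z (1 / 64 : ℝ), 0 < w.re ∧ ‖w‖ < 40 := by
    intro w hw
    have h5 := re_ball hw
    have h6 := norm_ball hw
    constructor <;> linarith [h5.1]
  have h6 := (sp D.hd (c := z) (R := 1 / 64) (α := A / 2) (β := A * η) (by norm_num)
        (fun w hw => D.ne w (hb w hw).1 (hb w hw).2)
        (fun w hw => D.K0 (hb w hw).1 (hb w hw).2)).1
  have hA0 : 0 ≤ A := by linarith [D.A1]
  have h7 : (6 * η + 1 / 4) * A ≤ (25 / 4) * A := by
    apply mul_le_mul_of_nonneg_right _ hA0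
    linarith [D.η1]
  have h8 : 2 * (A / 2 * z.re + A * η - Real.log ‖h z‖) / (1 / 64) =
      128 * (A / 2 * z.re + A * η - Real.log ‖h z‖) := by ring
  rw [h8] at h6
  norm_num at h4
  linarith

/-- step 3 -/
theorem st3 (D : Dat A η h) {m θ : ℝ} (hm1 : m ≤ 1) (hm0 : 0 < m)
    (hθ : θ = 1 - (Real.log (127 / 32) - Real.log 2) / (Real.log (255 / 64) - Real.log 2))
    (hη : 12 * η ≤ m) (hηθ : (12 * η) ^ θ ≤ m) {z : ℂ} (h1 : 1 / 32 ≤ z.re)
    (h2 : z.re ≤ 10) (h3 : |z.im| ≤ 8) :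
    ‖logDeriv h z - ((A / 2 : ℝ) : ℂ)‖ ≤ 1749600 * m * A := by
  have hA0 : 0 < A := by linarith [D.A1]
  have hn : ‖z‖ ≤ 18 := by
    refine le_trans (norm_le_re_im z) ?_
    rw [abs_of_pos (by linarith)]
    linarith
  by_cases hz2 : 2 ≤ z.re
  · have h4 := (D.st1 hz2 (by linarith)).2
    refine le_trans h4 ?_
    apply mul_le_mul_of_nonneg_right _ hA0.le
    linarith
  · push Not at hz2
    set c : ℂ := ((4 : ℝ) : ℂ) + (z.im : ℂ) * I with hc
    have hcre : c.re = 4 := by simp [hc]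
    have hcim : c.im = z.im := by simp [hc]
    have hdz : dist z c = 4 - z.re := by
      rw [dist_eq_norm]
      have h8 : z - c = ((z.re - 4 : ℝ) : ℂ) := by
        apply Complex.ext
        · rw [Complex.sub_re, hcre, Complex.ofReal_re]
        · rw [Complex.sub_im, hcim, Complex.ofReal_im]; ring
      rw [h8, Complex.norm_real, Real.norm_eq_abs, abs_of_neg (by linarith)]
      ring
    have hbox : ∀ w : ℂ, dist w c ≤ 255 / 64 → 1 / 64 ≤ w.re ∧ w.re ≤ 8 ∧ |w.im| ≤ 12 := by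
      intro w hw
      rw [dist_eq_norm] at hw
      have h9 := abs_le.1 (Complex.abs_re_le_norm (w - c))
      have h10 := Complex.abs_im_le_norm (w - c)
      rw [Complex.sub_re, hcre] at h9
      rw [Complex.sub_im, hcim] at h10
      refine ⟨by linarith [h9.1], by linarith [h9.2], ?_⟩
      have h11 : |w.im| ≤ |w.im - z.im| + |z.im| := by
        have := abs_add_le (w.im - z.im) z.im
        rwa [sub_add_cancel] at this
      linarith
    set f : ℂ → ℂ := fun w => (logDeriv h w - ((A / 2 : ℝ) : ℂ)) / (A : ℂ) with hf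
    have hnf : ∀ w, ‖f w‖ = ‖logDeriv h w - ((A / 2 : ℝ) : ℂ)‖ / A := by
      intro w
      rw [hf]
      simp only
      rw [norm_div, Complex.norm_real, Real.norm_eq_abs, abs_of_pos hA0]
    have hB : ∀ w : ℂ, 2 ≤ dist w c → dist w c ≤ 255 / 64 → ‖f w‖ ≤ 1749600 := by
      intro w _ hw
      obtain ⟨hb1, hb2, hb3⟩ := hbox w hw
      rw [hnf, div_le_iff₀ hA0]
      exact D.st2' hb1 (by linarith) (by linarith)
    have hd : ∀ w : ℂ, 2 ≤ dist w c → dist w c ≤ 255 / 64 → DifferentiableAt ℂ f w := by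
      intro w _ hw
      obtain ⟨hb1, hb2, hb3⟩ := hbox w hw
      have hwn : ‖w‖ < 40 := by
        refine lt_of_le_of_lt (norm_le_re_im w) ?_
        rw [abs_of_pos (by linarith)]
        linarith
      have hder : DifferentiableAt ℂ (deriv h) w := by
        have : DifferentiableOn ℂ (deriv h) univ := D.hd.differentiableOn.deriv isOpen_univ
        exact (this w (mem_univ w)).differentiableAt univ_mem
      have h12 : DifferentiableAt ℂ (fun v => deriv h v / h v) w :=
        hder.div (D.hd w) (D.ne w (by linarith) hwn)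
      exact (h12.sub_const _).div_const _
    have ha : ∀ w : ℂ, dist w c = 2 → ‖f w‖ ≤ 12 * η := by
      intro w hw
      obtain ⟨hb1, hb2, hb3⟩ := hbox w (by rw [hw]; norm_num)
      rw [hnf, div_le_iff₀ hA0]
      have hw2 : 2 ≤ w.re := by
        rw [dist_eq_norm] at hw
        have h9 := abs_le.1 (Complex.abs_re_le_norm (w - c))
        rw [Complex.sub_re, hcre, hw] at h9
        linarith [h9.1]
      refine (D.st1 hw2 ?_).2
      refine le_trans (norm_le_re_im w) ?_
      rw [abs_of_pos (by linarith)]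
      linarith
    have hb : ∀ w : ℂ, dist w c = 255 / 64 → ‖f w‖ ≤ 1749600 :=
      fun w hw => hB w (by rw [hw]; norm_num) (le_of_eq hw)
    have h13 := three (by norm_num) (by norm_num) hd hB ha hb (z := z)
      (by rw [hdz]; linarith) (by rw [hdz]; linarith)
    rw [hdz] at h13
    set t : ℝ := (Real.log (4 - z.re) - Real.log 2) / (Real.log (255 / 64) - Real.log 2) with ht
    have hden : 0 < Real.log (255 / 64) - Real.log 2 := by
      have := Real.log_lt_log (by norm_num : (0 : ℝ) < 2) (by norm_num : (2 : ℝ) < 255 / 64)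
      linarith
    have htle : t ≤ (Real.log (127 / 32) - Real.log 2) / (Real.log (255 / 64) - Real.log 2) := by
      rw [ht]
      apply div_le_div_of_nonneg_right _ hden.le
      have := Real.log_le_log (by linarith : (0 : ℝ) < 4 - z.re)
        (by linarith : 4 - z.re ≤ 127 / 32)
      linarith
    have ht1 : t ≤ 1 := by
      refine le_trans htle ?_
      rw [div_le_one hden]
      have := Real.log_le_log (by norm_num : (0 : ℝ) < 127 / 32)
        (by norm_num : (127 / 32 : ℝ) ≤ 255 / 64)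
      linarith
    have h14 : (12 * η) ^ (1 - t) ≤ m := by
      refine le_trans ?_ hηθ
      apply Real.rpow_le_rpow_of_exponent_ge (by linarith [D.η0]) (by linarith)
      rw [hθ]
      linarith
    have h15 : (1749600 : ℝ) ^ t ≤ 1749600 := by
      have := Real.rpow_le_rpow_of_exponent_le (by norm_num : (1 : ℝ) ≤ 1749600) ht1
      rwa [Real.rpow_one] at this
    have h16 : ‖f z‖ ≤ m * 1749600 := by
      refine le_trans h13 ?_
      apply mul_le_mul h14 h15 (Real.rpow_nonneg (by norm_num) _) hm0.le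
    rw [hnf, div_le_iff₀ hA0] at h16
    linarith

/-- step 4 -/
theorem st4 (D : Dat A η h) {m θ : ℝ} (hm1 : m ≤ 1) (hm0 : 0 < m)
    (hθ : θ = 1 - (Real.log (127 / 32) - Real.log 2) / (Real.log (255 / 64) - Real.log 2))
    (hη : 12 * η ≤ m) (hηθ : (12 * η) ^ θ ≤ m) {z : ℂ} (h1 : 1 / 32 ≤ z.re)
    (h2 : ‖z‖ ≤ 8) :
    |A / 2 * z.re + A * (η - 1 / 4) - Real.log ‖h z‖| ≤ (6 * η + 3499200 * m) * A := by
  have hA0 : 0 < A := by linarith [D.A1]
  have hre : z.re ≤ 8 := le_trans (Complex.re_le_norm z) h2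
  have him : |z.im| ≤ 8 := le_trans (Complex.abs_im_le_norm z) h2
  have h2re : (z + 2).re = z.re + 2 := by simp
  have h2n : ‖z + 2‖ ≤ 10 := by
    refine le_trans (norm_add_le _ _) ?_
    have : ‖(2 : ℂ)‖ = 2 := by simp
    linarith
  have hb : ∀ w ∈ ball (z + 2) (z.re + 2), 0 < w.re ∧ ‖w‖ < 40 := by
    intro w hw
    have h5 := re_ball hw
    have h6 := norm_ball hw
    rw [h2re] at h5
    constructor <;> linarith [h5.1]
  obtain ⟨G, hG, hGre, _⟩ := prim D.hd (c := z + 2) (R := z.re + 2) (α := A / 2)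
    (β := A * (η - 1 / 4)) (by linarith) (fun w hw => D.ne w (hb w hw).1 (hb w hw).2)
  have hseg : ∀ w ∈ segment ℝ z (z + 2), w ∈ ball (z + 2) (z.re + 2) ∧ z.re ≤ w.re ∧
      w.re ≤ z.re + 2 ∧ w.im = z.im := by
    intro w hw
    rw [segment_eq_image'] at hw
    obtain ⟨τ, hτ, rfl⟩ := hw
    have h7 : z + τ • (z + 2 - z) = z + ((2 * τ : ℝ) : ℂ) := by
      rw [add_sub_cancel_left, Complex.real_smul]
      push_cast
      ring
    simp only [h7]
    refine ⟨?_, ?_, ?_, ?_⟩
    · rw [mem_ball, dist_eq_norm]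
      have h8 : z + ((2 * τ : ℝ) : ℂ) - (z + 2) = ((2 * τ - 2 : ℝ) : ℂ) := by
        push_cast
        ring
      rw [h8, Complex.norm_real, Real.norm_eq_abs, abs_of_nonpos (by linarith [hτ.2])]
      linarith [hτ.1]
    · simp only [Complex.add_re, Complex.ofReal_re]
      linarith [hτ.1]
    · simp only [Complex.add_re, Complex.ofReal_re]
      linarith [hτ.2]
    · simp only [Complex.add_im, Complex.ofReal_im, add_zero]
  have hmv := Convex.norm_image_sub_le_of_norm_hasDerivWithin_le (𝕜 := ℂ) (f := G)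
    (f' := fun w => ((A / 2 : ℝ) : ℂ) - logDeriv h w) (C := 1749600 * m * A)
    (s := segment ℝ z (z + 2)) (x := z) (y := z + 2)
    (fun w hw => (hG w (hseg w hw).1).hasDerivWithinAt)
    (by
      intro w hw
      obtain ⟨_, hw1, hw2, hw3⟩ := hseg w hw
      rw [norm_sub_rev]
      exact D.st3 hm1 hm0 hθ hη hηθ (by linarith) (by linarith) (by rw [hw3]; exact him))
    (convex_segment _ _) (left_mem_segment _ _ _) (right_mem_segment _ _ _)
  have h9 : ‖z + 2 - z‖ = 2 := by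
    rw [add_sub_cancel_left]
    simp
  rw [h9] at hmv
  have h10 := abs_le.1 (le_trans (Complex.abs_re_le_norm _) hmv)
  rw [Complex.sub_re, hGre _ (hseg _ (right_mem_segment _ _ _)).1,
    hGre _ (hseg _ (left_mem_segment _ _ _)).1] at h10
  have h11 := (D.st1 (z := z + 2) (by rw [h2re]; linarith) (by linarith)).1
  have h12 := D.u0 (z := z + 2) (by rw [h2re]; linarith) (by linarith)
  have hη0 := D.η0
  have h13 : 0 ≤ η * A := by positivity
  rw [abs_le]
  constructor <;> nlinarith [h10.1, h10.2]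

end Dat

end Pool.Agent.H218.HN
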